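import Pool.Agent.H72.GP.Targets
import Pool.Agent.H39.PS.SIE
import Pool.Agent.H19.PSV.MJM
import Pool.Agent.H19.PSV.LCM
import Pool.Agent.H70.PS.TYM

/-!
Row SIE of the board gpo_modules (MP_3cf473_nt): the auxiliary polynomials for the logarithms of
Gaussian integers, by the lemma of Siegel.
-/

set_option autoImplicit false

open Polynomial Finset

namespace Pool.Agent.H41.GPO

open Pool.Agent.H72.GP
open Pool.Agent.H85.PS (II MM Vec Sup Deg Jf Typ Maj Tay)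
open Pool.Agent.H39.PS (siegel prodInd lcmUpto_dvd typ_one maj_one maj_mono MM_pos mem_II)

theorem typ_prod (h1 : Pool.Agent.H85.PS.T_TYM) {s : ℕ} (f : Fin s → PowerSeries ℚ)
    (hf : ∀ k, Typ 1 1 (f k)) (e : Fin s → ℕ) :
    Typ 1 (∑ k, e k) (∏ k, f k ^ e k) := by
  refine prodInd (fun t g => Typ 1 t g) (typ_one 1) f ?_ e
  intro t g k hg
  exact h1 1 t 1 g _ hg (hf k)

theorem maj_prod (h0 : Pool.Agent.H85.PS.T_MJM) {s B : ℕ} (f : Fin s → PowerSeries ℚ)
    (hb : ∀ k, Maj 1 B (f k)) (e : Fin s → ℕ) :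
    Maj 1 (2 ^ (∑ k, e k) * B) (∏ k, f k ^ e k) := by
  refine prodInd (fun t g => Maj 1 (2 ^ t * B) g) ?_ f ?_ e
  · exact maj_one _ (by positivity)
  · intro t g k hg
    have h3 : Maj 1 (2 ^ t * B) (f k) := by
      refine maj_mono zero_le_one (Nat.cast_nonneg B) ?_ (hb k)
      have h4 : (1 : ℝ) ≤ 2 ^ t := one_le_pow₀ (by norm_num)
      have h5 : (0 : ℝ) ≤ B := Nat.cast_nonneg B
      nlinarith
    have h4 := h0 1 1 (2 ^ t * B) g _ (by positivity) zero_le_one hg h3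
    rw [one_mul, ← mul_assoc, ← pow_succ'] at h4
    exact h4

/-- the integral coefficients -/
theorem coeff_int (h1 : Pool.Agent.H85.PS.T_TYM) {s D T : ℕ} (f : Fin s → PowerSeries ℚ)
    (hf : ∀ k, Typ 1 1 (f k)) (e : Fin s → ℕ) (he : ∑ k, e k ≤ D) (i : ℕ) (hi : i ≤ T) :
    ∃ z : ℤ, (Nat.lcmUpto T : ℚ) ^ D * PowerSeries.coeff i (∏ k, f k ^ e k) = z := by
  obtain ⟨z, hz⟩ := typ_prod h1 f hf e i
  obtain ⟨r, hr⟩ := lcmUpto_dvd hi
  obtain ⟨d, hd⟩ := Nat.exists_eq_add_of_le he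
  refine ⟨(Nat.lcmUpto T : ℤ) ^ d * (r : ℤ) ^ (∑ k, e k) * z, ?_⟩
  rw [Int.cast_mul, ← hz]
  push_cast
  rw [hd, hr]
  push_cast
  ring

theorem coeff_size (h0 : Pool.Agent.H85.PS.T_MJM) (h3 : Pool.Agent.H85.PS.T_LCM)
    {s D T B : ℕ} (f : Fin s → PowerSeries ℚ) (hB : 1 ≤ B)
    (hb : ∀ k, Maj 1 B (f k)) (e : Fin s → ℕ) (he : ∑ k, e k ≤ D) (i : ℕ) (hi : i ≤ T) :
    (Nat.lcmUpto T : ℝ) ^ D *
      |((PowerSeries.coeff i (∏ k, f k ^ e k) : ℚ) : ℝ)| ≤ (438 ^ D * B) ^ T := by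
  have h4 := maj_prod h0 f hb e i
  have h5 := h3 T
  have hB' : (1 : ℝ) ≤ B := by exact_mod_cast hB
  have h6 : (1 : ℝ) ≤ 2 ^ D * B := by
    have : (1 : ℝ) ≤ 2 ^ D := one_le_pow₀ (by norm_num)
    nlinarith
  have h7 : (2 ^ (∑ k, e k) * (B : ℝ)) ^ i ≤ (2 ^ D * B) ^ T := by
    calc (2 ^ (∑ k, e k) * (B : ℝ)) ^ i ≤ (2 ^ D * B) ^ i := by
          gcongr
          norm_num
      _ ≤ (2 ^ D * B) ^ T := pow_le_pow_right₀ h6 hi
  calc (Nat.lcmUpto T : ℝ) ^ D * |((PowerSeries.coeff i (∏ k, f k ^ e k) : ℚ) : ℝ)|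
      ≤ (219 ^ T) ^ D * (2 ^ D * B) ^ T := by
        gcongr
        rw [one_mul] at h4
        exact h4.trans h7
    _ = (438 ^ D * B) ^ T := by
        rw [← pow_mul, mul_comm T D, pow_mul, ← mul_pow, ← mul_assoc, ← mul_pow]
        norm_num

theorem core (h0 : Pool.Agent.H85.PS.T_MJM) (h1 : Pool.Agent.H85.PS.T_TYM)
    (h3 : Pool.Agent.H85.PS.T_LCM) (s D q0 : ℕ) (hq : 2 ≤ q0) :
    ∃ c : ℕ, 1 ≤ c ∧ ∀ (n B : ℕ) (f : Fin s → PowerSeries ℚ),
    1 ≤ n → 1 ≤ B → (∀ k, Typ 1 1 (f k)) → (∀ k, Maj 1 B (f k)) →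
    ∃ A : Vec s, A ≠ 0 ∧ Sup D A ∧ Deg (q0 * n) A ∧
    (∀ e j, ∃ z : ℤ, (A e).coeff j = z) ∧
    (∀ e j, |(((A e).coeff j : ℚ) : ℝ)| ≤ ((c : ℝ) * B) ^ (c * n)) ∧
    (PowerSeries.X : PowerSeries ℚ) ^ (MM s D * q0 * n - n) ∣ evf f D A := by
  have hM : 1 ≤ MM s D := MM_pos s D
  refine ⟨4 * 438 ^ D * (MM s D * q0) ^ 2, ?_, ?_⟩
  · have : 0 < 4 * 438 ^ D * (MM s D * q0) ^ 2 := by positivity
    exact this
  intro n B f hn hB hf hb
  set m : ℕ := q0 * n with hm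
  set T : ℕ := MM s D * q0 * n - n with hT
  have hT1 : T + n = MM s D * q0 * n := by
    have : n ≤ MM s D * q0 * n := Nat.le_mul_of_pos_left n (by positivity)
    omega
  have hT0 : 0 < T := by
    have : 2 * n ≤ MM s D * q0 * n := by
      have : 2 ≤ MM s D * q0 := by nlinarith
      exact Nat.mul_le_mul_right n this
    omega
  have hcardβ : Fintype.card ({e // e ∈ II s D} × Fin (m + 1)) = MM s D * (m + 1) := by
    rw [Fintype.card_prod, Fintype.card_coe, Fintype.card_fin]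
    rfl
  have hcardβ' : MM s D * (m + 1) = T + n + MM s D := by
    rw [hT1, hm]
    ring
  -- the integral matrix
  have hZ : ∀ (e : {e // e ∈ II s D}) (i : ℕ), ∃ z : ℤ, i ≤ T →
      (Nat.lcmUpto T : ℚ) ^ D * PowerSeries.coeff i (∏ k, f k ^ e.1 k) = z := by
    intro e i
    by_cases hi : i ≤ T
    · obtain ⟨z, hz⟩ := coeff_int h1 (D := D) f hf e.1 (mem_II.1 e.2) i hi
      exact ⟨z, fun _ => hz⟩
    · exact ⟨0, fun h => absurd h hi⟩
  choose Z hZ using hZ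
  have hZs : ∀ (e : {e // e ∈ II s D}) (i : ℕ), i ≤ T →
      |((Z e i : ℤ) : ℝ)| ≤ (438 ^ D * B) ^ T := by
    intro e i hi
    have h5 := coeff_size h0 h3 f hB hb e.1 (mem_II.1 e.2) i hi
    have h6 : ((Z e i : ℤ) : ℝ) = (Nat.lcmUpto T : ℝ) ^ D *
        ((PowerSeries.coeff i (∏ k, f k ^ e.1 k) : ℚ) : ℝ) := by
      have h7 := hZ e i hi
      have h8 : (((Z e i : ℤ) : ℚ) : ℝ) = (((Nat.lcmUpto T : ℚ) ^ D *
        PowerSeries.coeff i (∏ k, f k ^ e.1 k) : ℚ) : ℝ) := by rw [h7]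
      push_cast at h8
      exact h8
    rw [h6, abs_mul, abs_pow, Nat.abs_cast]
    exact h5
  set a : Fin T → ({e // e ∈ II s D} × Fin (m + 1)) → ℤ := fun k u =>
    if (u.2 : ℕ) ≤ k then Z u.1 (k - u.2) else 0 with ha
  have hY : (1 : ℝ) ≤ (438 ^ D * B) ^ T := by
    refine one_le_pow₀ ?_
    have h5 : (1 : ℝ) ≤ 438 ^ D := one_le_pow₀ (by norm_num)
    have h6 : (1 : ℝ) ≤ B := by exact_mod_cast hB
    nlinarith
  obtain ⟨t, ht0, ht, htb⟩ := siegel a ((438 ^ D * B) ^ T) (MM s D * q0) hY (by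
    intro v u
    rw [ha]
    dsimp only
    split_ifs with h
    · exact hZs _ _ (by have := v.2; omega)
    · simp only [Int.cast_zero, abs_zero]
      positivity) (by rw [Fintype.card_fin, hcardβ]; omega) (by rw [Fintype.card_fin]; exact hT0)
    (by
      rw [Fintype.card_fin, hcardβ, hcardβ']
      push_cast
      have h5 : ((T : ℝ) + n) = MM s D * q0 * n := by exact_mod_cast hT1
      have h6 : (0 : ℝ) ≤ n := Nat.cast_nonneg n
      have h7 : (0 : ℝ) ≤ MM s D * q0 * MM s D := by positivity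
      nlinarith)
  -- the polynomials
  obtain ⟨A, hA⟩ : ∃ A : Vec s, A = fun e => if h : e ∈ II s D then
      ∑ j : Fin (m + 1), C ((t (⟨e, h⟩, j) : ℤ) : ℚ) * X ^ (j : ℕ) else 0 := ⟨_, rfl⟩
  have hA1 : ∀ e : {e // e ∈ II s D}, A e.1 =
      ∑ j : Fin (m + 1), C ((t (e, j) : ℤ) : ℚ) * X ^ (j : ℕ) := by
    intro e
    rw [hA]
    dsimp only
    rw [dif_pos e.2]
  have hA0 : ∀ e, e ∉ II s D → A e = 0 := by
    intro e h
    rw [hA]
    dsimp only
    rw [dif_neg h]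
  have hAc : ∀ (e : {e // e ∈ II s D}) (i : ℕ), (A e.1).coeff i =
      if h : i < m + 1 then ((t (e, ⟨i, h⟩) : ℤ) : ℚ) else 0 := by
    intro e i
    rw [hA1, finsetSum_coeff]
    simp only [coeff_C_mul, coeff_X_pow, mul_ite, mul_one, mul_zero]
    split_ifs with h
    · rw [Finset.sum_eq_single (⟨i, h⟩ : Fin (m + 1))]
      · rw [if_pos rfl]
      · intro j _ hj
        rw [if_neg]
        intro h'
        exact hj (Fin.ext h'.symm)
      · intro h'
        exact absurd (Finset.mem_univ _) h'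
    · refine Finset.sum_eq_zero fun j _ => ?_
      rw [if_neg]
      intro h'
      exact h (h' ▸ j.2)
  have hAint : ∀ e j, ∃ z : ℤ, (A e).coeff j = z ∧
      |(z : ℝ)| ≤ (MM s D * (m + 1) * (438 ^ D * B) ^ T : ℝ) ^ (MM s D * q0) := by
    intro e j
    by_cases he : e ∈ II s D
    · have h5 := hAc ⟨e, he⟩ j
      dsimp only at h5
      by_cases hj : j < m + 1
      · rw [dif_pos hj] at h5
        refine ⟨_, h5, ?_⟩
        have h6 := htb (⟨e, he⟩, ⟨j, hj⟩)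
        rw [hcardβ] at h6
        push_cast at h6
        exact h6
      · rw [dif_neg hj] at h5
        refine ⟨0, by rw [h5]; simp, ?_⟩
        simp only [Int.cast_zero, abs_zero]
        positivity
    · refine ⟨0, by rw [hA0 e he]; simp, ?_⟩
      simp only [Int.cast_zero, abs_zero]
      positivity
  refine ⟨A, ?_, ?_, ?_, ?_, ?_, ?_⟩
  · intro hA00
    apply ht0
    funext u
    have h5 := hAc u.1 u.2
    rw [hA00, dif_pos u.2.2] at h5
    simp only [Pi.zero_apply, coeff_zero] at h5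
    have h6 : ((t u : ℤ) : ℚ) = 0 := h5.symm
    exact_mod_cast h6
  · intro e he
    exact hA0 e fun h => by
      have := mem_II.1 h
      omega
  · intro e
    rw [natDegree_le_iff_coeff_eq_zero]
    intro j hj
    by_cases he : e ∈ II s D
    · have h5 := hAc ⟨e, he⟩ j
      dsimp only at h5
      rw [h5, dif_neg (by omega)]
    · rw [hA0 e he, coeff_zero]
  · intro e j
    obtain ⟨z, hz, -⟩ := hAint e j
    exact ⟨z, hz⟩
  · intro e j
    obtain ⟨z, hz, hzb⟩ := hAint e j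
    rw [hz]
    push_cast
    refine hzb.trans ?_
    have h438 : (1 : ℝ) ≤ 438 ^ D := one_le_pow₀ (by norm_num)
    have hB' : (1 : ℝ) ≤ B := by exact_mod_cast hB
    have hMq : 1 ≤ MM s D * q0 := by nlinarith
    have h5 : (MM s D * (m + 1) : ℝ) ≤ 4 ^ (MM s D * q0 * n) := by
      have h6 : MM s D * (m + 1) ≤ 2 * (MM s D * q0 * n) := by
        have : MM s D ≤ MM s D * q0 * n := by
          have : MM s D * 1 ≤ MM s D * (q0 * n) := Nat.mul_le_mul_left _ (by nlinarith)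
          nlinarith
        rw [hcardβ', hT1]
        omega
      have h7 : 2 * (MM s D * q0 * n) ≤ 4 ^ (MM s D * q0 * n) := by
        have h8 : MM s D * q0 * n < 2 ^ (MM s D * q0 * n) := Nat.lt_two_pow_self
        have h9 : 2 ≤ 2 ^ (MM s D * q0 * n) := by
          refine Nat.le_self_pow ?_ 2
          have : 0 < MM s D * q0 * n := by positivity
          omega
        calc 2 * (MM s D * q0 * n) ≤ 2 ^ (MM s D * q0 * n) * 2 ^ (MM s D * q0 * n) :=
              Nat.mul_le_mul h9 h8.le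
          _ = 4 ^ (MM s D * q0 * n) := by
              rw [← mul_pow]
              norm_num
      exact_mod_cast h6.trans h7
    have h6 : ((438 : ℝ) ^ D * B) ^ T ≤ (438 ^ D * B) ^ (MM s D * q0 * n) := by
      refine pow_le_pow_right₀ ?_ (by omega)
      nlinarith
    have h7 : (MM s D * (m + 1) * (438 ^ D * B) ^ T : ℝ) ≤
        (4 * 438 ^ D * B) ^ (MM s D * q0 * n) := by
      calc (MM s D * (m + 1) * (438 ^ D * B) ^ T : ℝ)
          ≤ 4 ^ (MM s D * q0 * n) * (438 ^ D * B) ^ (MM s D * q0 * n) := by gcongr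
        _ = (4 * 438 ^ D * B) ^ (MM s D * q0 * n) := by
            rw [← mul_pow]
            congr 1
            ring
    calc (MM s D * (m + 1) * (438 ^ D * B) ^ T : ℝ) ^ (MM s D * q0)
        ≤ ((4 * 438 ^ D * B) ^ (MM s D * q0 * n)) ^ (MM s D * q0) := by gcongr
      _ = (4 * 438 ^ D * B) ^ ((MM s D * q0) ^ 2 * n) := by
          rw [← pow_mul]
          congr 1
          ring
      _ ≤ (4 * 438 ^ D * (MM s D * q0) ^ 2 * B) ^ ((MM s D * q0) ^ 2 * n) := by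
          have h8 : (1 : ℝ) ≤ (MM s D * q0) ^ 2 := by
            refine one_le_pow₀ ?_
            exact_mod_cast hMq
          refine pow_le_pow_left₀ (by positivity) ?_ _
          refine mul_le_mul_of_nonneg_right ?_ (by positivity)
          exact le_mul_of_one_le_right (by positivity) h8
      _ ≤ (4 * 438 ^ D * (MM s D * q0) ^ 2 * B) ^ (4 * 438 ^ D * (MM s D * q0) ^ 2 * n) := by
          refine pow_le_pow_right₀ ?_ ?_
          · have h8 : (1 : ℝ) ≤ (MM s D * q0) ^ 2 := by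
              refine one_le_pow₀ ?_
              exact_mod_cast hMq
            have h9 : (1 : ℝ) ≤ 4 * 438 ^ D := by linarith
            exact one_le_mul_of_one_le_of_one_le (one_le_mul_of_one_le_of_one_le h9 h8) hB'
          · refine Nat.mul_le_mul_right n ?_
            refine Nat.le_mul_of_pos_left _ (by positivity)
  · rw [PowerSeries.X_pow_dvd_iff]
    intro k hk
    have h5 := ht ⟨k, hk⟩
    have h6 : ((Nat.lcmUpto T : ℚ) ^ D) ≠ 0 := by
      have := Nat.lcmUpto_pos T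
      positivity
    refine (mul_eq_zero.1 ?_).resolve_left h6
    have h7 : ∀ e : {e // e ∈ II s D}, PowerSeries.coeff k (((A e.1 : ℚ[X]) : PowerSeries ℚ) *
        ∏ l, f l ^ e.1 l) = ∑ j : Fin (m + 1), ((t (e, j) : ℤ) : ℚ) *
        (if (j : ℕ) ≤ k then PowerSeries.coeff (k - j) (∏ l, f l ^ e.1 l) else 0) := by
      intro e
      have h8 : ((A e.1 : ℚ[X]) : PowerSeries ℚ) =
          ∑ j : Fin (m + 1), PowerSeries.C ((t (e, j) : ℤ) : ℚ) * PowerSeries.X ^ (j : ℕ) := by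
        rw [hA1]
        have h9 := map_sum (Polynomial.coeToPowerSeries.ringHom (R := ℚ))
          (fun j : Fin (m + 1) => C ((t (e, j) : ℤ) : ℚ) * X ^ (j : ℕ)) Finset.univ
        rw [Polynomial.coeToPowerSeries.ringHom_apply] at h9
        rw [h9]
        refine Finset.sum_congr rfl fun j _ => ?_
        rw [Polynomial.coeToPowerSeries.ringHom_apply, Polynomial.coe_mul, Polynomial.coe_pow,
          Polynomial.coe_C, Polynomial.coe_X]
      rw [h8, Finset.sum_mul, map_sum]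
      refine Finset.sum_congr rfl fun j _ => ?_
      rw [mul_assoc, PowerSeries.coeff_C_mul, PowerSeries.coeff_X_pow_mul']
    rw [evf, map_sum, ← Finset.sum_coe_sort, Finset.mul_sum]
    simp only [h7]
    have h8 : (((∑ u, a ⟨k, hk⟩ u * t u : ℤ)) : ℚ) = 0 := by rw [h5]; simp
    refine Eq.trans ?_ h8
    rw [Fintype.sum_prod_type]
    push_cast
    refine Finset.sum_congr rfl fun e _ => ?_
    rw [Finset.mul_sum]
    refine Finset.sum_congr rfl fun j _ => ?_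
    rw [ha]
    dsimp only
    split_ifs with h
    · rw [← hZ e (k - j) (by omega)]
      ring
    · simp

/-- the parts of `(x + i y) ^ n` -/
theorem gp_le (x y : ℚ) (B : ℝ) (hx : |(x : ℝ)| ≤ B) (hy : |(y : ℝ)| ≤ B) :
    ∀ n, |(((gp x y n).1 : ℚ) : ℝ)| ≤ (2 * B) ^ n ∧ |(((gp x y n).2 : ℚ) : ℝ)| ≤ (2 * B) ^ n := by
  have hB : 0 ≤ B := (abs_nonneg _).trans hx
  intro n
  induction n with
  | zero => simp [gp]
  | succ n ih =>
    obtain ⟨h1, h2⟩ := ih
    have h3 : (0 : ℝ) ≤ (2 * B) ^ n := by positivity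
    simp only [gp]
    push_cast
    constructor
    · calc |(x : ℝ) * ((gp x y n).1 : ℚ) - (y : ℝ) * ((gp x y n).2 : ℚ)|
          ≤ |(x : ℝ) * ((gp x y n).1 : ℚ)| + |(y : ℝ) * ((gp x y n).2 : ℚ)| := abs_sub _ _
        _ ≤ B * (2 * B) ^ n + B * (2 * B) ^ n := by
            rw [abs_mul, abs_mul]
            gcongr
        _ = (2 * B) ^ (n + 1) := by ring
    · calc |(x : ℝ) * ((gp x y n).2 : ℚ) + (y : ℝ) * ((gp x y n).1 : ℚ)|
          ≤ |(x : ℝ) * ((gp x y n).2 : ℚ)| + |(y : ℝ) * ((gp x y n).1 : ℚ)| := abs_add_le _ _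
        _ ≤ B * (2 * B) ^ n + B * (2 * B) ^ n := by
            rw [abs_mul, abs_mul]
            gcongr
        _ = (2 * B) ^ (n + 1) := by ring

theorem maj_lgG (κ : Bool) (x y : ℤ) (B : ℕ) (hx : |x| ≤ B) (hy : |y| ≤ B) :
    Maj 1 ((2 * B : ℕ) : ℝ) (lgG κ x y) := by
  intro i
  have hx' : |(((x : ℤ) : ℚ) : ℝ)| ≤ B := by
    have : ((|x| : ℤ) : ℝ) ≤ B := by exact_mod_cast hx
    simpa using this
  have hy' : |(((y : ℤ) : ℚ) : ℝ)| ≤ B := by
    have : ((|y| : ℤ) : ℝ) ≤ B := by exact_mod_cast hy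
    simpa using this
  obtain ⟨h1, h2⟩ := gp_le x y B hx' hy' i
  have h3 : |(((if κ then (gp x y i).2 else (gp x y i).1 : ℚ)) : ℝ)| ≤ (2 * B) ^ i := by
    cases κ
    · simpa using h1
    · simpa using h2
  rw [lgG, PowerSeries.coeff_mk]
  push_cast at h3 ⊢
  rw [abs_div, abs_mul, abs_pow, abs_neg, abs_one, one_pow, one_mul, one_mul, Nat.abs_cast]
  rcases Nat.eq_zero_or_pos i with rfl | hi
  · simp
  · have hi' : (1 : ℝ) ≤ i := by exact_mod_cast hi
    exact (div_le_self (abs_nonneg _) hi').trans h3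

theorem pf_SIE' (h0 : Pool.Agent.H85.PS.T_MJM) (h1 : Pool.Agent.H85.PS.T_TYM)
    (h3 : Pool.Agent.H85.PS.T_LCM) (hTYL : T_TYL) : T_SIE := by
  intro s D q0 hq
  obtain ⟨c, hc, h⟩ := core h0 h1 h3 s D q0 hq
  refine ⟨2 * c, by omega, ?_⟩
  intro n B κ x y hn hB hxy
  obtain ⟨A, hA0, hAs, hAd, hAi, hAb, hAx⟩ := h n (2 * B) (fun k => lgG (κ k) (x k) (y k)) hn
    (by omega)
    (fun k => hTYL 1 (κ k) (x k) (y k) ⟨x k, by simp⟩ ⟨y k, by simp⟩)
    (fun k => maj_lgG (κ k) (x k) (y k) B (hxy k).1 (hxy k).2)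
  refine ⟨A, hA0, hAs, hAd, hAi, fun e j => (hAb e j).trans ?_, hAx⟩
  have hc' : (1 : ℝ) ≤ c := by exact_mod_cast hc
  have hB' : (1 : ℝ) ≤ B := by exact_mod_cast hB
  have h4 : (c : ℝ) * ((2 * B : ℕ) : ℝ) = ((2 * c : ℕ) : ℝ) * B := by
    push_cast
    ring
  rw [h4]
  refine pow_le_pow_right₀ ?_ ?_
  · push_cast
    nlinarith
  · nlinarith

theorem pf_SIE (hTYL : T_TYL) : T_SIE :=
  pf_SIE' Pool.Agent.H19.PSV.pf_MJM Pool.Agent.H70.PS.pf_TYM Pool.Agent.H19.PSV.pf_LCM hTYL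

end Pool.Agent.H41.GPO
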